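import Pool.Agent.helper45.BR.Spec
import Pool.Agent.helper92.MP.MI

/-!
# br: module POL (Cauchy's theorem for closed polygons in an open set without holes)
-/

set_option autoImplicit false

open Complex Metric Set Filter Topology MeasureTheory MPS Pool.Agent.helper98.ILF
  Pool.Agent.helper16.Multibrot
open scoped Manifold ContDiff

noncomputable section

namespace BR

theorem POL_compact (γ : ℕ → ℂ) (m : ℕ) : IsCompact (pS γ m) := by
  unfold pS
  refine (Finset.range m).isCompact_biUnion fun i _ => ?_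
  rw [segment_eq_image']
  exact isCompact_Icc.image (by fun_prop)

/-- a compact set together with the bounded components of its complement. -/
def POL_L (Γ : Set ℂ) : Set ℂ :=
  Γ ∪ {p | p ∉ Γ ∧ Bornology.IsBounded (connectedComponentIn Γᶜ p)}

theorem POL_ray (R : ℝ) (hR : 0 < R) (Γ : Set ℂ) (hΓ : Γ ⊆ ball 0 R) (p : ℂ) (hp : R ≤ ‖p‖) :
    ¬ Bornology.IsBounded (connectedComponentIn Γᶜ p) := by
  intro hb
  have hp0 : 0 < ‖p‖ := lt_of_lt_of_le hR hp
  have h1 : IsPreconnected ((fun s : ℝ => (s : ℂ) * p) '' Ici 1) :=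
    (isPreconnected_Ici).image _ (by fun_prop)
  have h2 : (fun s : ℝ => (s : ℂ) * p) '' Ici 1 ⊆ Γᶜ := by
    rintro _ ⟨s, hs, rfl⟩ hmem
    have h3 := hΓ hmem
    rw [mem_ball, dist_zero_right, norm_mul, Complex.norm_real, Real.norm_eq_abs,
      abs_of_pos (lt_of_lt_of_le one_pos hs)] at h3
    have h4 : (1 : ℝ) ≤ s := hs
    nlinarith
  have h3 : p ∈ (fun s : ℝ => (s : ℂ) * p) '' Ici 1 := ⟨1, by simp, by simp⟩
  have h4 := h1.subset_connectedComponentIn h3 h2
  obtain ⟨C, hC⟩ := (hb.subset h4).exists_norm_le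
  have h5 := hC (((max 1 ((|C| + 1) / ‖p‖) : ℝ) : ℂ) * p)
    ⟨max 1 ((|C| + 1) / ‖p‖), mem_Ici.2 (le_max_left _ _), rfl⟩
  rw [norm_mul, Complex.norm_real, Real.norm_eq_abs,
    abs_of_pos (lt_of_lt_of_le one_pos (le_max_left _ _))] at h5
  have h6 : (|C| + 1) / ‖p‖ * ‖p‖ ≤ max 1 ((|C| + 1) / ‖p‖) * ‖p‖ :=
    mul_le_mul_of_nonneg_right (le_max_right _ _) hp0.le
  rw [div_mul_cancel₀ _ hp0.ne'] at h6
  have h7 := le_abs_self C
  linarith

theorem POL_L_compact (Γ : Set ℂ) (hΓ : IsCompact Γ) : IsCompact (POL_L Γ) := by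
  obtain ⟨R, hR, hΓR⟩ := hΓ.isBounded.subset_ball_lt 0 0
  refine Metric.isCompact_of_isClosed_isBounded ?_ ?_
  · rw [← isOpen_compl_iff, isOpen_iff_mem_nhds]
    intro p hp
    have hpΓ : p ∈ Γᶜ := fun h => hp (Or.inl h)
    have hpb : ¬ Bornology.IsBounded (connectedComponentIn Γᶜ p) := fun h => hp (Or.inr ⟨hpΓ, h⟩)
    have hopen : IsOpen (connectedComponentIn Γᶜ p) :=
      hΓ.isClosed.isOpen_compl.connectedComponentIn
    filter_upwards [hopen.mem_nhds (mem_connectedComponentIn hpΓ)] with q hq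
    rintro (h | ⟨_, h⟩)
    · exact (connectedComponentIn_subset _ _ hq) h
    · rw [connectedComponentIn_eq hq] at hpb
      exact hpb h
  · refine (Metric.isBounded_closedBall (x := (0 : ℂ)) (r := R)).subset ?_
    rintro p (h | ⟨h, hb⟩)
    · exact ball_subset_closedBall (hΓR h)
    · by_contra hcon
      rw [mem_closedBall, dist_zero_right, not_le] at hcon
      exact POL_ray R hR Γ hΓR p hcon.le hb

theorem POL_cut (U L : Set ℂ) (hU : IsOpen U) (hL : IsCompact L) (hLU : L ⊆ U) (h : ℂ → ℂ)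
    (hh : DifferentiableOn ℂ h U) :
    ∃ φ : ℂ → ℂ, ContDiff ℝ 1 φ ∧ HasCompactSupport φ ∧ (∀ z ∈ L, φ z = h z) ∧
      ∀ z ∈ L, dbar φ z = 0 := by
  obtain ⟨K₁, hK₁, hLK, hKU⟩ := exists_compact_between hL hU hLU
  obtain ⟨χ, h0, h1, _⟩ := exists_contMDiffMap_zero_one_nhds_of_isClosed (n := (1 : ℕ∞))
    𝓘(ℝ, ℂ) (isOpen_interior (s := K₁)).isClosed_compl hL.isClosed
    (Set.disjoint_left.2 fun x hx hxL => hx (hLK hxL))
  have hχ : ContDiff ℝ 1 (fun z : ℂ => χ z) := by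
    have := χ.contMDiff.contDiff
    simpa using this
  set φ : ℂ → ℂ := fun z => ((χ z : ℝ) : ℂ) * h z with hφ
  have hout : ∀ z, z ∉ interior K₁ → ∀ᶠ w in 𝓝 z, φ w = 0 := by
    intro z hz
    have h2 : ∀ᶠ w in 𝓝 z, χ w = 0 := h0.filter_mono (nhds_le_nhdsSet hz)
    filter_upwards [h2] with w hw
    simp [hφ, hw]
  have hnear : ∀ z ∈ L, ∀ᶠ w in 𝓝 z, φ w = h w := by
    intro z hz
    have h2 : ∀ᶠ w in 𝓝 z, χ w = 1 := h1.filter_mono (nhds_le_nhdsSet hz)
    filter_upwards [h2] with w hw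
    simp [hφ, hw]
  refine ⟨φ, ?_, ?_, fun z hz => (hnear z hz).self_of_nhds, fun z hz => ?_⟩
  · rw [contDiff_iff_contDiffAt]
    intro z
    by_cases hz : z ∈ U
    · have h2 : ContDiffAt ℂ 1 h z := (hh.contDiffOn hU).contDiffAt (hU.mem_nhds hz)
      have h3 : ContDiffAt ℝ 1 h z := h2.restrict_scalars ℝ
      have h4 : ContDiffAt ℝ 1 (fun z : ℂ => ((χ z : ℝ) : ℂ)) z :=
        (Complex.ofRealCLM.contDiff.comp hχ).contDiffAt
      exact h4.mul h3
    · have h2 : z ∉ interior K₁ := fun h => hz (hKU (interior_subset h))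
      have h3 : φ =ᶠ[𝓝 z] fun _ => 0 := hout z h2
      exact (contDiffAt_const (c := (0 : ℂ))).congr_of_eventuallyEq h3
  · refine HasCompactSupport.intro hK₁ fun z hz => ?_
    exact (hout z fun h => hz (interior_subset h)).self_of_nhds
  · have h2 : φ =ᶠ[𝓝 z] h := hnear z hz
    have h3 : DifferentiableAt ℂ h z := hh.differentiableAt (hU.mem_nhds (hLU hz))
    have h4 : fderiv ℝ φ z = (fderiv ℂ h z).restrictScalars ℝ := by
      rw [h2.fderiv_eq]
      exact (h3.hasFDerivAt.restrictScalars ℝ).fderiv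
    unfold dbar
    rw [h4]
    have h5 : ((fderiv ℂ h z).restrictScalars ℝ) I = I * ((fderiv ℂ h z).restrictScalars ℝ) 1 := by
      have h6 : (fderiv ℂ h z) I = I • (fderiv ℂ h z) 1 := by
        rw [← map_smul, smul_eq_mul, mul_one]
      simpa using h6
    rw [h5]
    have h7 : I * (I * ((fderiv ℂ h z).restrictScalars ℝ) 1) =
        -(((fderiv ℂ h z).restrictScalars ℝ) 1) := by
      rw [← mul_assoc, Complex.I_mul_I]
      ring
    rw [h7, add_neg_cancel, zero_div]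

/-- bound and integrability of the Cauchy kernel. -/
theorem POL_ker (ψ : ℂ → ℂ) (hψ : Continuous ψ) (hc : HasCompactSupport ψ) :
    ∃ C : ℝ, ∀ z : ℂ, Integrable (fun ζ => ψ ζ / (z - ζ)) ∧ ∫ ζ, ‖ψ ζ / (z - ζ)‖ ≤ C := by
  obtain ⟨B, hB⟩ := hc.exists_bound_of_continuous hψ
  have hint : Integrable (fun ζ => ‖ψ ζ‖) := (hψ.integrable_of_hasCompactSupport hc).norm
  have hB0 : 0 ≤ B := (norm_nonneg _).trans (hB 0)
  refine ⟨B * (2 * Real.pi * 1) + ∫ ζ, ‖ψ ζ‖, fun z => ?_⟩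
  have h0 : IntegrableOn (fun ζ : ℂ => B * (1 / ‖ζ - z‖)) (ball z 1) :=
    Integrable.const_mul (MPS.MI_int z 1) B
  have h1 : Integrable (fun ζ => (ball z 1).indicator (fun ζ : ℂ => B * (1 / ‖ζ - z‖)) ζ + ‖ψ ζ‖) :=
    (h0.integrable_indicator measurableSet_ball).add hint
  have h2 : ∀ ζ, ‖ψ ζ / (z - ζ)‖ ≤
      (ball z 1).indicator (fun ζ : ℂ => B * (1 / ‖ζ - z‖)) ζ + ‖ψ ζ‖ := by
    intro ζ
    rw [norm_div, norm_sub_rev z ζ]
    by_cases hζ : ζ ∈ ball z 1
    · rw [indicator_of_mem hζ]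
      have h3 : ‖ψ ζ‖ / ‖ζ - z‖ ≤ B * (1 / ‖ζ - z‖) := by
        rw [mul_one_div]
        exact div_le_div_of_nonneg_right (hB ζ) (norm_nonneg _)
      have h4 := norm_nonneg (ψ ζ)
      linarith
    · rw [indicator_of_notMem hζ, zero_add]
      rw [mem_ball, dist_eq_norm, not_lt] at hζ
      exact div_le_self (norm_nonneg _) hζ
  have h3 : AEStronglyMeasurable (fun ζ => ψ ζ / (z - ζ)) :=
    (hψ.measurable.div (measurable_const.sub measurable_id)).aestronglyMeasurable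
  have h4 : Integrable (fun ζ => ψ ζ / (z - ζ)) :=
    h1.mono' h3 (Filter.Eventually.of_forall h2)
  refine ⟨h4, ?_⟩
  calc ∫ ζ, ‖ψ ζ / (z - ζ)‖
      ≤ ∫ ζ, ((ball z 1).indicator (fun ζ : ℂ => B * (1 / ‖ζ - z‖)) ζ + ‖ψ ζ‖) :=
        integral_mono h4.norm h1 h2
    _ = (∫ ζ, (ball z 1).indicator (fun ζ : ℂ => B * (1 / ‖ζ - z‖)) ζ) + ∫ ζ, ‖ψ ζ‖ :=
        integral_add (h0.integrable_indicator measurableSet_ball) hint
    _ = _ := by
        rw [integral_indicator measurableSet_ball, integral_const_mul,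
          MPS.MI_val z 1 zero_le_one]

theorem POL_fub (ψ : ℂ → ℂ) (hψ : Continuous ψ) (hc : HasCompactSupport ψ) (a b : ℂ) :
    Integrable (fun ζ => ψ ζ * sI (fun z => 1 / (z - ζ)) a b) ∧
    ∫ ζ, ψ ζ * sI (fun z => 1 / (z - ζ)) a b =
      ∫ t in (0 : ℝ)..1, (b - a) * ∫ ζ, ψ ζ / ((a + t * (b - a)) - ζ) := by
  obtain ⟨C, hC⟩ := POL_ker ψ hψ hc
  set F : ℝ × ℂ → ℂ := fun x => (b - a) * (ψ x.2 / ((a + x.1 * (b - a)) - x.2)) with hF
  have hmeas : Measurable F := by
    refine measurable_const.mul ((hψ.measurable.comp measurable_snd).div ?_)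
    refine Measurable.sub ?_ measurable_snd
    exact (Measurable.mul (Complex.measurable_ofReal.comp measurable_fst) measurable_const).const_add _
  have hFi : Integrable F ((volume.restrict (Ioc (0 : ℝ) 1)).prod volume) := by
    rw [integrable_prod_iff hmeas.aestronglyMeasurable]
    refine ⟨Filter.Eventually.of_forall fun t => (hC (a + t * (b - a))).1.const_mul (b - a), ?_⟩
    refine Integrable.of_bound (hmeas.aestronglyMeasurable.norm.integral_prod_right')
      (‖b - a‖ * C) (Filter.Eventually.of_forall fun t => ?_)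
    have h1 : ∫ y, ‖F (t, y)‖ = ‖b - a‖ * ∫ ζ, ‖ψ ζ / ((a + t * (b - a)) - ζ)‖ := by
      rw [← integral_const_mul]
      refine integral_congr_ae (Filter.Eventually.of_forall fun y => ?_)
      simp only [hF, norm_mul]
    have h2 : (0 : ℝ) ≤ ∫ y, ‖F (t, y)‖ := integral_nonneg fun _ => norm_nonneg _
    rw [Real.norm_eq_abs, abs_of_nonneg h2, h1]
    exact mul_le_mul_of_nonneg_left (hC _).2 (norm_nonneg _)
  have hinner : ∀ ζ, ψ ζ * sI (fun z => 1 / (z - ζ)) a b =
      ∫ t, F (t, ζ) ∂(volume.restrict (Ioc (0 : ℝ) 1)) := by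
    intro ζ
    unfold sI
    rw [intervalIntegral.integral_of_le zero_le_one, ← integral_const_mul]
    refine integral_congr_ae (Filter.Eventually.of_forall fun t => ?_)
    simp only [hF]
    ring
  constructor
  · have h1 := hFi.swap.integral_prod_left
    refine h1.congr (Filter.Eventually.of_forall fun ζ => ?_)
    exact (hinner ζ).symm
  · have h1 := MeasureTheory.integral_integral_swap (f := fun (t : ℝ) (ζ : ℂ) => F (t, ζ)) hFi
    rw [intervalIntegral.integral_of_le zero_le_one]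
    calc ∫ ζ, ψ ζ * sI (fun z => 1 / (z - ζ)) a b
        = ∫ ζ, ∫ t, F (t, ζ) ∂(volume.restrict (Ioc (0 : ℝ) 1)) :=
          integral_congr_ae (Filter.Eventually.of_forall hinner)
      _ = ∫ t, ∫ ζ, F (t, ζ) ∂volume ∂(volume.restrict (Ioc (0 : ℝ) 1)) := h1.symm
      _ = _ := by
          refine integral_congr_ae (Filter.Eventually.of_forall fun t => ?_)
          simp only [hF]
          rw [integral_const_mul]

theorem POL (hWND : WND_stmt) (hCPF : CPF_stmt) : POL_stmt := by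
  intro U h γ m hU hNH hh hγU hγ
  set Γ := pS γ m with hΓ
  have hΓc : IsCompact Γ := POL_compact γ m
  have hL : IsCompact (POL_L Γ) := POL_L_compact Γ hΓc
  have hLU : POL_L Γ ⊆ U := by
    rintro p (hp | ⟨hp, hb⟩)
    · exact hγU hp
    · exact hNH Γ hγU hΓc p hp hb (mem_connectedComponentIn hp)
  obtain ⟨φ, hφ1, hφ2, hφ3, hφ4⟩ := POL_cut U (POL_L Γ) hU hL hLU h hh
  have hψ : Continuous (dbar φ) := by
    have h1 : Continuous (fderiv ℝ φ) := hφ1.continuous_fderiv (by norm_num)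
    unfold dbar
    exact ((h1.clm_apply continuous_const).add
      (continuous_const.mul (h1.clm_apply continuous_const))).div_const 2
  have hψc : HasCompactSupport (dbar φ) := by
    refine HasCompactSupport.intro (hφ2.fderiv (𝕜 := ℝ)) fun z hz => ?_
    have h1 : fderiv ℝ φ z = 0 := image_eq_zero_of_notMem_tsupport hz
    unfold dbar
    rw [h1]
    simp
  have hpi : (Real.pi : ℂ) ≠ 0 := by exact_mod_cast Real.pi_ne_zero
  have hval : ∀ z, φ z = (1 / Real.pi : ℂ) * ∫ ζ, dbar φ ζ / (z - ζ) := by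
    intro z
    have h1 := (hCPF φ z hφ1 hφ2).2
    have h2 : ∫ ζ, dbar φ ζ / (z - ζ) = -∫ ζ, dbar φ ζ / (ζ - z) := by
      rw [← integral_neg]
      refine integral_congr_ae (Filter.Eventually.of_forall fun ζ => ?_)
      show dbar φ ζ / (z - ζ) = -(dbar φ ζ / (ζ - z))
      rw [← neg_sub ζ z, div_neg]
    rw [h2, h1]
    field_simp
  have hseg : ∀ i ∈ Finset.range m, sI h (γ i) (γ (i + 1)) =
      (1 / Real.pi : ℂ) * ∫ ζ, dbar φ ζ * sI (fun z => 1 / (z - ζ)) (γ i) (γ (i + 1)) := by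
    intro i hi
    rw [(POL_fub (dbar φ) hψ hψc (γ i) (γ (i + 1))).2, ← intervalIntegral.integral_const_mul]
    unfold sI
    refine intervalIntegral.integral_congr fun t ht => ?_
    rw [uIcc_of_le zero_le_one] at ht
    have hmem : γ i + t * (γ (i + 1) - γ i) ∈ Γ := by
      rw [hΓ]
      unfold pS
      refine mem_biUnion hi ?_
      rw [segment_eq_image']
      exact ⟨t, ht, by simp⟩
    show (γ (i + 1) - γ i) * h (γ i + t * (γ (i + 1) - γ i)) = _
    rw [← hφ3 _ (Or.inl hmem), hval]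
    ring
  have hsum : pI h γ m = (1 / Real.pi : ℂ) * ∫ ζ, dbar φ ζ * pI (fun z => 1 / (z - ζ)) γ m := by
    unfold pI
    rw [Finset.sum_congr rfl hseg, ← Finset.mul_sum]
    congr 1
    rw [← integral_finsetSum _ fun i _ => (POL_fub (dbar φ) hψ hψc (γ i) (γ (i + 1))).1]
    refine integral_congr_ae (Filter.Eventually.of_forall fun ζ => ?_)
    exact (Finset.mul_sum _ _ _).symm
  rw [hsum]
  have hzero : ∀ ζ, dbar φ ζ * pI (fun z => 1 / (z - ζ)) γ m = 0 := by
    intro ζ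
    by_cases hζ : ζ ∈ POL_L Γ
    · rw [hφ4 ζ hζ, zero_mul]
    · have h1 : ζ ∉ Γ := fun h => hζ (Or.inl h)
      have h2 : ¬ Bornology.IsBounded (connectedComponentIn Γᶜ ζ) := fun h => hζ (Or.inr ⟨h1, h⟩)
      rw [hWND γ m ζ hγ h1 h2, mul_zero]
  have h3 : ∫ ζ, dbar φ ζ * pI (fun z => 1 / (z - ζ)) γ m = 0 := by
    rw [integral_congr_ae (Filter.Eventually.of_forall hzero)]
    simp
  rw [h3, mul_zero]

end BR
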